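import Mathlib

/-!
# First Betti number, first `L²`-Betti number and surface groups
-/

set_option autoImplicit false

open scoped TensorProduct InnerProductSpace

namespace Pool.Agent.H46Z.L2

/-- The Hilbert space `ℓ²(α)` of square summable complex functions on `α`. -/
abbrev Ell (α : Type) : Type := lp (fun _ : α => ℂ) 2

/-- The first Betti number `dim_ℚ H_1(H; ℚ)`, where `H_1(H; ℚ) = ℚ ⊗ H^ab`. -/
noncomputable def b1 (H : Type) [Group H] : ℕ :=
  Module.finrank ℚ (ℚ ⊗[ℤ] Additive (Abelianization H))

open Classical in
/-- The standard unit vector `δ_a` of `ℓ²(α)`. -/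
noncomputable def delta {α : Type} (a : α) : Ell α := lp.single 2 a 1

/-- The diagonal coefficient `⟨v, P v⟩` of the orthogonal projection `P` onto the closure of `W`. -/
noncomputable def projCoeff {X : Type} [NormedAddCommGroup X] [InnerProductSpace ℂ X]
    [CompleteSpace X] (W : Submodule ℂ X) (v : X) : ℝ :=
  (⟪v, W.topologicalClosure.starProjection v⟫_ℂ).re

/-- The von Neumann dimension over `N(H)` of the closure of a subspace `W` of
`ℓ²(H × I) = ℓ²(H)^I` that is invariant under left translation: the trace
`∑ i, ⟨δ_(1,i), P δ_(1,i)⟩` of the orthogonal projection `P` onto the closure of `W`. -/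
noncomputable def vnDim {H I : Type} [Group H] [Fintype I] (W : Submodule ℂ (Ell (H × I))) : ℝ :=
  ∑ i : I, projCoeff W (delta (1, i))

/-- The linear span of the functions in `ℓ²(α)` with the property `p`. -/
noncomputable def spanEll {α : Type} (p : (α → ℂ) → Prop) : Submodule ℂ (Ell α) :=
  Submodule.span ℂ {x : Ell α | p x}

/-- An `ℓ²`-chain on the edges of the Cayley graph of `H` for the finite set `S` is a cycle. The pair
`(g, s)` is the edge from `g` to `g s`, with boundary `δ_(g s) - δ_g`; a chain is a cycle if its
boundary vanishes at every vertex `g`. -/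
def IsCycle {H : Type} [Group H] (S : Finset H) (x : H × S → ℂ) : Prop :=
  ∀ g : H, ∑ s : S, (x (g * (s : H)⁻¹, s) - x (g, s)) = 0

/-- The space of `ℓ²`-cycles of the Cayley graph (the set is already a subspace). -/
noncomputable def cycles {H : Type} [Group H] (S : Finset H) : Submodule ℂ (Ell (H × S)) :=
  spanEll (IsCycle S)

/-- The span of the finitely supported cycles of the Cayley graph. If `S` generates `H` these are the
boundaries of the finite 2-chains in the universal cover of a presentation complex, so their closure
is the closure of the `ℓ²`-boundaries. -/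
noncomputable def boundaries {H : Type} [Group H] (S : Finset H) : Submodule ℂ (Ell (H × S)) :=
  spanEll fun x => IsCycle S x ∧ (Function.support x).Finite

/-- The first `L²`-Betti number of `H`, computed with the finite generating set `S`: the von Neumann
dimension of the reduced homology, the `ℓ²`-cycles modulo the closure of the boundaries, realised as
the orthogonal complement of the boundaries in the cycles. -/
noncomputable def b1L2 {H : Type} [Group H] (S : Finset H) : ℝ :=
  vnDim (cycles S ⊓ (boundaries S)ᗮ)

/-- The fundamental group of the closed orientable surface of genus `g`. -/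
abbrev OrientableSurfaceGroup (g : ℕ) : Type :=
  PresentedGroup ({(List.ofFn fun i : Fin g =>
    FreeGroup.of (i, false) * FreeGroup.of (i, true) * (FreeGroup.of (i, false))⁻¹ *
      (FreeGroup.of (i, true))⁻¹).prod} : Set (FreeGroup (Fin g × Bool)))

/-- The fundamental group of the closed non-orientable surface of genus `k`. -/
abbrev NonorientableSurfaceGroup (k : ℕ) : Type :=
  PresentedGroup ({(List.ofFn fun i : Fin k => FreeGroup.of i ^ 2).prod} : Set (FreeGroup (Fin k)))

/-- `G` is a hyperbolic surface group: the fundamental group of a closed surface of negative Euler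
characteristic, orientable of genus at least 2 or non-orientable of genus at least 3. -/
def IsHyperbolicSurfaceGroup (G : Type) [Group G] : Prop :=
  (∃ g, 2 ≤ g ∧ Nonempty (G ≃* OrientableSurfaceGroup g)) ∨
    (∃ k, 3 ≤ k ∧ Nonempty (G ≃* NonorientableSurfaceGroup k))

end Pool.Agent.H46Z.L2
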