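import Mathlib
import Pool.Agent.H46Z.L2.Defs

/-!
# Upper bound for the first Betti numbers of finite index subgroups
-/

set_option autoImplicit false

open scoped TensorProduct

namespace Pool.Agent.H46Z.L2

section Perm

variable {G Ω : Type} [Group G] [MulAction G Ω] [Fintype Ω]

theorem root_of_rel {a b : G} (hrel : a * b * a⁻¹ = b ^ 4) :
    ∃ m : ℕ, ∀ ω : Ω, ((b ^ 4) ^ m) • ω = b • ω := by
  classical
  let ρ := MulAction.toPermHom G Ω
  have h1 : ρ a * ρ b * (ρ a)⁻¹ = ρ b ^ 4 := by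
    rw [← map_inv, ← map_mul, ← map_mul, hrel, map_pow]
  have h2 : orderOf (ρ b ^ 4) = orderOf (ρ b) := by
    rw [← h1]
    exact (MulAut.conj (ρ a)).orderOf_eq (ρ b)
  have h3 : Nat.Coprime 4 (orderOf (ρ b)) := by
    rw [orderOf_pow' _ (by norm_num)] at h2
    have h4 : 0 < orderOf (ρ b) := orderOf_pos _
    have h5 := Nat.div_eq_self.1 h2
    rw [Nat.coprime_comm]
    rcases h5 with h5 | h5
    · omega
    · exact h5
  obtain ⟨m, hm⟩ := exists_pow_eq_self_of_coprime h3
  refine ⟨m, fun ω => ?_⟩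
  have h6 : ρ ((b ^ 4) ^ m) = ρ b := by rw [map_pow, map_pow, hm]
  exact congrArg (fun σ : Equiv.Perm Ω => σ ω) h6

/-- translation operator -/
def tr (s : G) : (Ω → ℚ) →ₗ[ℚ] (Ω → ℚ) := LinearMap.funLeft ℚ ℚ (fun ω => s • ω)

omit [Fintype Ω] in
theorem tr_apply (s : G) (y : Ω → ℚ) (ω : Ω) : tr s y ω = y (s • ω) := rfl

/-- the linear relation -/
def LL (a b : G) : (Ω → ℚ) × (Ω → ℚ) →ₗ[ℚ] (Ω → ℚ) :=
  (tr (b ^ 4) - LinearMap.id).coprod
    (tr a⁻¹ - LinearMap.id - tr b - tr (b ^ 2) - tr (b ^ 3))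

omit [Fintype Ω] in
theorem LL_apply (a b : G) (x y : Ω → ℚ) (ω : Ω) : LL a b (x, y) ω =
    x (b ^ 4 • ω) - x ω + (y (a⁻¹ • ω) - y ω - y (b • ω) - y (b ^ 2 • ω) - y (b ^ 3 • ω)) := rfl

theorem LL_surj {a b : G} (hrel : a * b * a⁻¹ = b ^ 4) :
    LinearMap.range (LL (Ω := Ω) a b) = ⊤ := by
  obtain ⟨m, hm⟩ := root_of_rel (Ω := Ω) hrel
  set R := LinearMap.range (LL (Ω := Ω) a b) with hR
  have h1 : ∀ (j : ℕ) (x : Ω → ℚ), tr ((b ^ 4) ^ j) x - x ∈ R := by
    intro j
    induction j with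
    | zero =>
      intro x
      have : tr ((b ^ 4) ^ 0) x - x = 0 := by funext ω; simp [tr_apply]
      rw [this]; exact R.zero_mem
    | succ j ih =>
      intro x
      have h2 : LL a b (tr ((b ^ 4) ^ j) x, 0) ∈ R := LinearMap.mem_range_self _ _
      have h3 : tr ((b ^ 4) ^ (j + 1)) x - x =
          LL a b (tr ((b ^ 4) ^ j) x, 0) + (tr ((b ^ 4) ^ j) x - x) := by
        funext ω
        simp only [Pi.add_apply, Pi.sub_apply, LL_apply, tr_apply, Pi.zero_apply, pow_succ (b ^ 4) j,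
          mul_smul]
        ring
      rw [h3]
      exact R.add_mem h2 (ih x)
  have h2 : ∀ x : Ω → ℚ, tr b x - x ∈ R := by
    intro x
    have : tr b x = tr ((b ^ 4) ^ m) x := by funext ω; rw [tr_apply, tr_apply, hm]
    rw [this]
    exact h1 m x
  let M : (Ω → ℚ) →ₗ[ℚ] (Ω → ℚ) := tr a⁻¹ - (4 : ℚ) • LinearMap.id
  have hM : Function.Injective M := by
    rw [injective_iff_map_eq_zero]
    intro y hy
    have h3 : ∀ ω, y (a⁻¹ • ω) = 4 * y ω := fun ω => sub_eq_zero.1 (congrFun hy ω)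
    have h4 : ∑ ω, |y (a⁻¹ • ω)| = ∑ ω, |y ω| :=
      Equiv.sum_comp (MulAction.toPerm a⁻¹) (fun ω => |y ω|)
    simp only [h3, abs_mul, ← Finset.mul_sum] at h4
    have h5 : ∑ ω, |y ω| = 0 := by
      rw [abs_of_pos (by norm_num : (0 : ℚ) < 4)] at h4
      linarith
    rw [Finset.sum_eq_zero_iff_of_nonneg (fun _ _ => abs_nonneg _)] at h5
    funext ω
    exact abs_eq_zero.1 (h5 ω (Finset.mem_univ _))
  rw [eq_top_iff]
  intro z _
  obtain ⟨y, rfl⟩ := LinearMap.injective_iff_surjective.1 hM z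
  have h3 : M y = LL a b (0, y) + (3 : ℚ) • (tr b y - y) + (2 : ℚ) • (tr b (tr b y) - tr b y) +
      (tr b (tr b (tr b y)) - tr b (tr b y)) := by
    funext ω
    have e2 : b ^ 2 • ω = b • b • ω := by rw [pow_two, mul_smul]
    have e3 : b ^ 3 • ω = b • b • b • ω := by rw [pow_three, mul_smul, mul_smul]
    simp only [Pi.add_apply, Pi.sub_apply, Pi.smul_apply, LL_apply, tr_apply, Pi.zero_apply, e2, e3,
      smul_eq_mul]
    show y (a⁻¹ • ω) - 4 * y ω = _
    ring
  rw [h3]
  exact R.add_mem (R.add_mem (R.add_mem (LinearMap.mem_range_self _ _) (R.smul_mem _ (h2 _)))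
    (R.smul_mem _ (h2 _))) (h2 _)

theorem finrank_ker_LL {a b : G} (hrel : a * b * a⁻¹ = b ^ 4) :
    Module.finrank ℚ (LinearMap.ker (LL (Ω := Ω) a b)) = Fintype.card Ω := by
  have h := LinearMap.finrank_range_add_finrank_ker (LL (Ω := Ω) a b)
  rw [LL_surj hrel, finrank_top, Module.finrank_prod, Module.finrank_fintype_fun_eq_card] at h
  omega

end Perm

section Bound

variable {G : Type} [Group G] (H : Subgroup G)

/-- rational homology -/
abbrev HV : Type := ℚ ⊗[ℤ] Additive (Abelianization H)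

/-- the class of an element -/
noncomputable def cl (h : H) : HV H := (1 : ℚ) ⊗ₜ[ℤ] Additive.ofMul (Abelianization.of h)

theorem cl_mul (h h' : H) : cl H (h * h') = cl H h + cl H h' := by
  unfold cl
  rw [map_mul, ofMul_mul, TensorProduct.tmul_add]

theorem cl_one : cl H 1 = 0 := by
  unfold cl
  rw [map_one, ofMul_one, TensorProduct.tmul_zero]

theorem dual_eq_zero (ψ : Module.Dual ℚ (HV H)) (h : ∀ x, ψ (cl H x) = 0) : ψ = 0 := by
  refine LinearMap.ext fun v => ?_
  induction v using TensorProduct.induction_on with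
  | zero => simp
  | tmul q x =>
    obtain ⟨y, hy⟩ : ∃ y : H, Abelianization.of y = x.toMul := QuotientGroup.mk_surjective x.toMul
    have : q ⊗ₜ[ℤ] x = q • cl H y := by
      unfold cl
      rw [hy, TensorProduct.smul_tmul', smul_eq_mul, mul_one]
      rfl
    rw [this, map_smul, h]
    simp
  | add x y hx hy => rw [map_add, hx, hy]; simp

/-- the subgroup part of an element -/
noncomputable def hp (g : G) : H :=
  ⟨(Quotient.out (g : G ⧸ H))⁻¹ * g, QuotientGroup.eq.1 (QuotientGroup.out_eq' (g : G ⧸ H))⟩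

theorem hp_mul (g : G) (h : H) : hp H (g * h) = hp H g * h := by
  apply Subtype.ext
  have : ((g * h : G) : G ⧸ H) = g := QuotientGroup.mk_mul_of_mem g h.2
  simp only [hp, this, Subgroup.coe_mul, mul_assoc]

theorem out_mul_hp (g : G) : Quotient.out (g : G ⧸ H) * hp H g = g := by simp [hp]

theorem hp_out (ω : G ⧸ H) : hp H (Quotient.out ω) = 1 := by
  apply Subtype.ext
  simp [hp]

/-- the function attached to a homomorphism and a function on the cosets -/
noncomputable def FL (g : G) : Module.Dual ℚ (HV H) × (G ⧸ H → ℚ) →ₗ[ℚ] ℚ :=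
  (Module.Dual.eval ℚ (HV H) (cl H (hp H g))).coprod (LinearMap.proj (g : G ⧸ H))

theorem FL_apply (g : G) (p : Module.Dual ℚ (HV H) × (G ⧸ H → ℚ)) :
    FL H g p = p.1 (cl H (hp H g)) + p.2 g := rfl

theorem FL_mul (g : G) (h : H) (p : Module.Dual ℚ (HV H) × (G ⧸ H → ℚ)) :
    FL H (g * h) p = FL H g p + p.1 (cl H h) := by
  rw [FL_apply, FL_apply, hp_mul, cl_mul, map_add, QuotientGroup.mk_mul_of_mem g h.2]
  ring

/-- increments -/
noncomputable def DL (s : G) : Module.Dual ℚ (HV H) × (G ⧸ H → ℚ) →ₗ[ℚ] (G ⧸ H → ℚ) :=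
  LinearMap.pi fun ω => FL H (s * Quotient.out ω) - FL H (Quotient.out ω)

theorem DL_mk (s g : G) (p : Module.Dual ℚ (HV H) × (G ⧸ H → ℚ)) :
    DL H s p (g : G ⧸ H) = FL H (s * g) p - FL H g p := by
  have h1 := FL_mul H (s * Quotient.out (g : G ⧸ H)) (hp H g) p
  have h2 := FL_mul H (Quotient.out (g : G ⧸ H)) (hp H g) p
  rw [mul_assoc, out_mul_hp] at h1
  rw [out_mul_hp] at h2
  rw [h1, h2]
  show FL H (s * Quotient.out (g : G ⧸ H)) p - FL H (Quotient.out (g : G ⧸ H)) p = _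
  ring

theorem b1_le [H.FiniteIndex] {a b : G} {c : Bool → G}
    (hgen : ∀ K : Subgroup G, a ∈ K → b ∈ K → (∀ i, c i ∈ K) → K = ⊤)
    (hrel : a * b * a⁻¹ = b ^ 4) : b1 H ≤ 2 * H.index + 1 := by
  classical
  have : Fintype (G ⧸ H) := Fintype.ofFinite _
  have hker : ∀ p, ((tr a⁻¹ ∘ₗ DL H a).prod (DL H b)) p ∈ LinearMap.ker (LL (Ω := G ⧸ H) a b) := by
    intro p
    rw [LinearMap.mem_ker]
    funext ω
    obtain ⟨g, rfl⟩ := QuotientGroup.mk_surjective ω
    have e : ∀ s : G, s • (g : G ⧸ H) = ((s * g : G) : G ⧸ H) := fun s => rfl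
    have e' : ∀ s t : G, s • ((t * g : G) : G ⧸ H) = ((s * (t * g) : G) : G ⧸ H) := fun s t => rfl
    show LL a b (tr a⁻¹ (DL H a p), DL H b p) g = 0
    rw [LL_apply]
    simp only [tr_apply, e, e', DL_mk]
    have r1 : a⁻¹ * (b ^ 4 * g) = b * (a⁻¹ * g) := by rw [← hrel]; group
    have r2 : a * (b * (a⁻¹ * g)) = b ^ 4 * g := by rw [← hrel]; group
    have r3 : a * (a⁻¹ * g) = g := by group
    have r4 : b * (b * g) = b ^ 2 * g := by rw [pow_two, mul_assoc]
    have r5 : b * (b ^ 2 * g) = b ^ 3 * g := by group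
    have r6 : b * (b ^ 3 * g) = b ^ 4 * g := by group
    rw [r1, r2, r3, r4, r5, r6]
    ring
  let Ψ : Module.Dual ℚ (HV H) × (G ⧸ H → ℚ) →ₗ[ℚ]
      ℚ × ((G ⧸ H → ℚ) × (G ⧸ H → ℚ)) × LinearMap.ker (LL (Ω := G ⧸ H) a b) :=
    (FL H 1).prod (((DL H (c false)).prod (DL H (c true))).prod
      (LinearMap.codRestrict _ _ hker))
  have hΨ : Function.Injective Ψ := by
    rw [injective_iff_map_eq_zero]
    intro p hp0
    have h0 : FL H 1 p = 0 := congrArg Prod.fst hp0
    have h1 : DL H (c false) p = 0 := congrArg (fun z => z.2.1.1) hp0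
    have h2 : DL H (c true) p = 0 := congrArg (fun z => z.2.1.2) hp0
    have h3 : tr a⁻¹ (DL H a p) = 0 := congrArg (fun z => z.2.2.1.1) hp0
    have h4 : DL H b p = 0 := congrArg (fun z => z.2.2.1.2) hp0
    have h5 : DL H a p = 0 := by
      funext ω
      have := congrFun h3 (a • ω)
      rwa [tr_apply, inv_smul_smul] at this
    let K : Subgroup G :=
      { carrier := {s | ∀ g, FL H (s * g) p = FL H g p}
        one_mem' := fun g => by rw [one_mul]
        mul_mem' := fun {x y} hx hy g => by rw [mul_assoc, hx, hy]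
        inv_mem' := fun {x} hx g => by rw [← hx, mul_inv_cancel_left] }
    have hK : ∀ s, DL H s p = 0 → s ∈ K := fun s hs g => by
      have := DL_mk H s g p
      rw [hs] at this
      exact (sub_eq_zero.1 this.symm)
    have hT : K = ⊤ := hgen K (hK _ h5) (hK _ h4) (fun i => by cases i; exacts [hK _ h1, hK _ h2])
    have hF : ∀ g, FL H g p = 0 := by
      intro g
      have : g ∈ K := hT ▸ Subgroup.mem_top g
      rw [← h0, ← this 1, mul_one]
    refine Prod.ext (dual_eq_zero H _ fun h => ?_) ?_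
    · have := FL_mul H 1 h p
      rw [hF, hF, zero_add] at this
      exact this.symm
    · funext ω
      have := hF (Quotient.out ω)
      rwa [FL_apply, hp_out, cl_one, map_zero, zero_add, QuotientGroup.out_eq'] at this
  have : Module.Finite ℚ (Module.Dual ℚ (HV H) × (G ⧸ H → ℚ)) := Module.Finite.of_injective Ψ hΨ
  have : Module.Finite ℚ (Module.Dual ℚ (HV H)) :=
    Module.Finite.of_surjective (LinearMap.fst ℚ _ (G ⧸ H → ℚ)) LinearMap.fst_surjective
  have h := LinearMap.finrank_le_finrank_of_injective hΨ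
  rw [Module.finrank_prod, Module.finrank_prod, Module.finrank_prod, Module.finrank_prod,
    finrank_ker_LL hrel, Module.finrank_fintype_fun_eq_card, Subspace.dual_finrank_eq,
    Module.finrank_self] at h
  have hi : H.index = Fintype.card (G ⧸ H) := by
    rw [Subgroup.index, Nat.card_eq_fintype_card]
  unfold b1
  rw [hi]
  have : Module.finrank ℚ (HV H) = Module.finrank ℚ (ℚ ⊗[ℤ] Additive (Abelianization H)) := rfl
  omega

end Bound

end Pool.Agent.H46Z.L2
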