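import Mathlib

/-!
# Monotonicity of the von Neumann dimension under equivariant operators
-/

set_option autoImplicit false
set_option linter.unusedSectionVars false

open scoped InnerProductSpace
open ContinuousLinearMap

namespace Pool.Agent.H46Z.L2

variable {X Y : Type} [NormedAddCommGroup X] [InnerProductSpace ℂ X] [CompleteSpace X]
  [NormedAddCommGroup Y] [InnerProductSpace ℂ Y] [CompleteSpace Y]
  {H : Type} [Group H] {I J : Type} [Fintype I] [Fintype J]

/-- A unitary action with a finite family of vectors whose translates form an orthonormal basis. -/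
structure Frame (X : Type) [NormedAddCommGroup X] [InnerProductSpace ℂ X] (H : Type) [Group H]
    (I : Type) [Fintype I] where
  act : H → X → X
  vec : I → X
  adj : ∀ h x y, ⟪act h x, y⟫_ℂ = ⟪x, act h⁻¹ y⟫_ℂ
  pars : ∀ x y, HasSum (fun h => ∑ i, ⟪x, act h (vec i)⟫_ℂ * ⟪act h (vec i), y⟫_ℂ) ⟪x, y⟫_ℂ

theorem adjoint_equiv (F : Frame X H I) (G : Frame Y H J) (T : X →L[ℂ] Y)
    (hT : ∀ h x, T (F.act h x) = G.act h (T x)) (h : H) (y : Y) :
    adjoint T (G.act h y) = F.act h (adjoint T y) := by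
  refine ext_inner_right ℂ fun x => ?_
  rw [adjoint_inner_left, G.adj, F.adj, adjoint_inner_left, hT]

theorem trace_swap (F : Frame X H I) (G : Frame Y H J) (S T : X →L[ℂ] Y)
    (hS : ∀ h x, S (F.act h x) = G.act h (S x)) (hT : ∀ h x, T (F.act h x) = G.act h (T x)) :
    ∑ i, ⟪S (F.vec i), T (F.vec i)⟫_ℂ = ∑ j, ⟪adjoint T (G.vec j), adjoint S (G.vec j)⟫_ℂ := by
  have h1 := hasSum_sum (s := Finset.univ) fun i _ => G.pars (S (F.vec i)) (T (F.vec i))
  have h2 := hasSum_sum (s := Finset.univ) fun j _ => F.pars (adjoint T (G.vec j)) (adjoint S (G.vec j))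
  have h3 := (Equiv.inv H).hasSum_iff.2 h2
  refine h1.unique ?_
  convert h3 using 2 with h
  simp only [Function.comp_apply, Equiv.inv_apply]
  rw [Finset.sum_comm]
  refine Finset.sum_congr rfl fun j _ => Finset.sum_congr rfl fun i _ => ?_
  have a : ⟪S (F.vec i), G.act h (G.vec j)⟫_ℂ = ⟪F.act h⁻¹ (F.vec i), adjoint S (G.vec j)⟫_ℂ := by
    rw [adjoint_inner_right, hS, G.adj, inv_inv]
  have b : ⟪G.act h (G.vec j), T (F.vec i)⟫_ℂ = ⟪adjoint T (G.vec j), F.act h⁻¹ (F.vec i)⟫_ℂ := by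
    rw [adjoint_inner_left, hT, G.adj]
  rw [a, b, mul_comm]

theorem exists_res (T : X →L[ℂ] Y) {e : ℝ} (he : 0 < e) :
    ∃ R : X →L[ℂ] X, (∀ x, adjoint T (T (R x)) + (e : ℂ) • R x = x) ∧
      (∀ x, R (adjoint T (T x) + (e : ℂ) • x) = x) := by
  let A : X →L[ℂ] X := (adjoint T) ∘L T + (e : ℂ) • ContinuousLinearMap.id ℂ X
  have hA : ∀ x, A x = adjoint T (T x) + (e : ℂ) • x := fun x => rfl
  have hu : IsUnit A := by
    refine isUnit_of_forall_le_norm_inner_map A (c := ⟨e, he.le⟩) he fun x => ?_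
    have h1 : (⟪A x, x⟫_ℂ).re = ‖T x‖ ^ 2 + e * ‖x‖ ^ 2 := by
      rw [hA, inner_add_left, adjoint_inner_left, inner_smul_left, inner_self_eq_norm_sq_to_K,
        inner_self_eq_norm_sq_to_K]
      simp [← Complex.ofReal_pow]
    have h2 := Complex.re_le_norm ⟪A x, x⟫_ℂ
    show ‖x‖ ^ 2 * e ≤ _
    nlinarith [sq_nonneg ‖T x‖]
  obtain ⟨u, hu⟩ := hu
  refine ⟨(u⁻¹ : (X →L[ℂ] X)ˣ), fun x => ?_, fun x => ?_⟩
  · rw [← hA, ← hu]
    exact congrArg (fun f : X →L[ℂ] X => f x) u.mul_inv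
  · rw [← hA, ← hu]
    exact congrArg (fun f : X →L[ℂ] X => f x) u.inv_mul

theorem energy (T : X →L[ℂ] Y) {e : ℝ} {u x : X} (h : adjoint T (T u) + (e : ℂ) • u = x) :
    (⟪x, u⟫_ℂ).re = ‖T u‖ ^ 2 + e * ‖u‖ ^ 2 := by
  rw [← h, inner_add_left, adjoint_inner_left, inner_smul_left, inner_self_eq_norm_sq_to_K,
    inner_self_eq_norm_sq_to_K]
  simp [← Complex.ofReal_pow]

theorem re_inner_le (x y : X) : (⟪x, y⟫_ℂ).re ≤ ‖x‖ * ‖y‖ :=
  (Complex.re_le_norm _).trans (norm_inner_le_norm x y)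

theorem upper (T : X →L[ℂ] Y) {e : ℝ} (he : 0 < e) {u : X} {y : Y}
    (h : adjoint T (T u) + (e : ℂ) • u = adjoint T y) : (⟪adjoint T y, u⟫_ℂ).re ≤ ‖y‖ ^ 2 := by
  have h1 := energy T h
  have h2 : (⟪adjoint T y, u⟫_ℂ).re ≤ ‖y‖ * ‖T u‖ := by
    rw [adjoint_inner_left]
    exact re_inner_le _ _
  have h3 : 0 ≤ e * ‖u‖ ^ 2 := by positivity
  nlinarith [norm_nonneg y, norm_nonneg (T u), sq_nonneg (‖y‖ - ‖T u‖)]

theorem defect (T : X →L[ℂ] Y) {t : ℝ} (ht : 0 < t) {u w : X} (y : Y)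
    (h : adjoint T (T u) + ((t ^ 2 : ℝ) : ℂ) • u = w) :
    t ^ 2 * (⟪w, u⟫_ℂ).re ≤ (t * ‖y‖ + ‖w - adjoint T y‖) * ‖w‖ := by
  have h1 := energy T h
  have h2 := re_inner_le w u
  have h3 : t ^ 2 * ‖u‖ ≤ ‖w‖ := by
    rcases (norm_nonneg u).eq_or_lt with h0 | h0
    · rw [← h0, mul_zero]; exact norm_nonneg _
    · have : t ^ 2 * ‖u‖ * ‖u‖ ≤ ‖w‖ * ‖u‖ := by nlinarith [sq_nonneg ‖T u‖]
      exact le_of_mul_le_mul_right this h0
  have h4 : t * ‖T u‖ ≤ ‖w‖ := by
    refine abs_le_of_sq_le_sq' ?_ (norm_nonneg w) |>.2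
    have a : ‖T u‖ ^ 2 ≤ ‖w‖ * ‖u‖ := by nlinarith [sq_nonneg (t * ‖u‖)]
    have b : t ^ 2 * ‖T u‖ ^ 2 ≤ t ^ 2 * (‖w‖ * ‖u‖) := by gcongr
    nlinarith [norm_nonneg w]
  have h5 : (⟪w, u⟫_ℂ).re ≤ ‖y‖ * ‖T u‖ + ‖w - adjoint T y‖ * ‖u‖ := by
    have : ⟪w, u⟫_ℂ = ⟪y, T u⟫_ℂ + ⟪w - adjoint T y, u⟫_ℂ := by
      rw [inner_sub_left, adjoint_inner_left]; ring
    rw [this, Complex.add_re]
    exact add_le_add (re_inner_le _ _) (re_inner_le _ _)
  have h6 : t ^ 2 * (⟪w, u⟫_ℂ).re ≤ t ^ 2 * (‖y‖ * ‖T u‖ + ‖w - adjoint T y‖ * ‖u‖) := by gcongr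
  have h7 : t * ‖y‖ * (t * ‖T u‖) ≤ t * ‖y‖ * ‖w‖ := by gcongr
  have h8 : ‖w - adjoint T y‖ * (t ^ 2 * ‖u‖) ≤ ‖w - adjoint T y‖ * ‖w‖ := by gcongr
  nlinarith

/-- The dimension of the orthogonal complement of the kernel is at most the dimension of any closed
subspace containing the range. -/
theorem dim_le (F : Frame X H I) (G : Frame Y H J) (T : X →L[ℂ] Y)
    (hT : ∀ h x, T (F.act h x) = G.act h (T x)) (Z : Submodule ℂ Y) [Z.HasOrthogonalProjection]
    (hZ : ∀ x, T x ∈ Z) :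
    ∑ i, ‖T.kerᗮ.starProjection (F.vec i)‖ ^ 2 ≤ ∑ j, ‖Z.starProjection (G.vec j)‖ ^ 2 := by
  set w : I → X := fun i => T.kerᗮ.starProjection (F.vec i) with hw
  have hTw : ∀ i, T (F.vec i) = T (w i) := by
    intro i
    have h1 : F.vec i - w i ∈ T.kerᗮᗮ := Submodule.sub_starProjection_mem_orthogonal _
    rw [Submodule.orthogonal_orthogonal_eq_closure, T.isClosed_ker.submodule_topologicalClosure_eq]
      at h1
    have h2 : T (F.vec i - w i) = 0 := h1
    rwa [map_sub, sub_eq_zero] at h2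
  have key : ∀ k : ℝ, 0 < k →
      ∑ i, ‖w i‖ ^ 2 ≤ ∑ j, ‖Z.starProjection (G.vec j)‖ ^ 2 + 2 * k * ∑ i, ‖w i‖ := by
    intro k hk
    have hy : ∀ i, ∃ y, ‖w i - adjoint T y‖ ≤ k := by
      intro i
      have h1 : w i ∈ T.kerᗮ := Submodule.starProjection_apply_mem _ _
      rw [orthogonal_ker] at h1
      obtain ⟨z, ⟨y, rfl⟩, hz⟩ := Metric.mem_closure_iff.1 h1 k hk
      exact ⟨y, by rw [dist_eq_norm] at hz; exact hz.le⟩
    choose y hy using hy
    set M : ℝ := 1 + ∑ i, ‖y i‖ with hM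
    have hM0 : 0 < M := by
      have : 0 ≤ ∑ i, ‖y i‖ := Finset.sum_nonneg fun i _ => norm_nonneg _
      linarith
    set t : ℝ := k / M with ht
    have ht0 : 0 < t := div_pos hk hM0
    have hty : ∀ i, t * ‖y i‖ ≤ k := by
      intro i
      have h1 : ‖y i‖ ≤ ∑ i, ‖y i‖ :=
        Finset.single_le_sum (f := fun i => ‖y i‖) (fun i _ => norm_nonneg _) (Finset.mem_univ i)
      have h2 : t * ‖y i‖ ≤ t * M := by gcongr; linarith
      have h3 : t * M = k := div_mul_cancel₀ _ hM0.ne'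
      linarith
    obtain ⟨R, hR1, hR2⟩ := exists_res T (e := t ^ 2) (by positivity)
    have hRsa : ∀ x z, ⟪R x, z⟫_ℂ = ⟪x, R z⟫_ℂ := by
      intro x z
      conv_lhs => rw [← hR1 z]
      conv_rhs => rw [← hR1 x]
      rw [inner_add_left, inner_add_right, adjoint_inner_left, adjoint_inner_right, inner_smul_left,
        inner_smul_right, Complex.conj_ofReal]
    have hlin : ∀ h (a b : X) (c : ℂ), F.act h (a + c • b) = F.act h a + c • F.act h b := by
      intro h a b c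
      refine ext_inner_right ℂ fun z => ?_
      rw [F.adj, inner_add_left, inner_add_left, inner_smul_left, inner_smul_left, F.adj, F.adj]
    have hReq : ∀ h x, R (F.act h x) = F.act h (R x) := by
      intro h x
      conv_lhs => rw [← hR1 x, hlin, ← adjoint_equiv F G T hT, ← hT]
      exact hR2 _
    have htr := trace_swap F G T (T ∘L R) hT (fun h x => by
      simp only [comp_apply]; rw [hReq, hT])
    have hadj : ∀ z, adjoint (T ∘L R) z = R (adjoint T z) := by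
      intro z
      refine ext_inner_right ℂ fun x => ?_
      rw [adjoint_inner_left, hRsa, adjoint_inner_left]
      rfl
    have hre := congrArg Complex.re htr
    rw [Complex.re_sum, Complex.re_sum] at hre
    have hup : ∀ j, (⟪adjoint (T ∘L R) (G.vec j), adjoint T (G.vec j)⟫_ℂ).re ≤
        ‖Z.starProjection (G.vec j)‖ ^ 2 := by
      intro j
      have h1 : adjoint T (G.vec j) = adjoint T (Z.starProjection (G.vec j)) := by
        refine ext_inner_right ℂ fun x => ?_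
        rw [adjoint_inner_left, adjoint_inner_left, Submodule.inner_starProjection_left_eq_right,
          Submodule.starProjection_eq_self_iff.2 (hZ x)]
      rw [hadj, hRsa, h1]
      exact upper T (by positivity) (hR1 _)
    have hlow : ∀ i, ‖w i‖ ^ 2 - 2 * k * ‖w i‖ ≤
        (⟪T (F.vec i), (T ∘L R) (F.vec i)⟫_ℂ).re := by
      intro i
      have hc : ∀ x, adjoint T (T (R x)) = R (adjoint T (T x)) := by
        intro x
        have a := hR1 x
        have b := hR2 x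
        rw [map_add, map_smul] at b
        exact add_right_cancel (a.trans b.symm)
      have h1 : ⟪T (F.vec i), (T ∘L R) (F.vec i)⟫_ℂ = ⟪w i, adjoint T (T (R (w i)))⟫_ℂ := by
        have a : adjoint T (T (R (F.vec i))) = adjoint T (T (R (w i))) := by rw [hc, hc, hTw]
        rw [hTw, ← a, adjoint_inner_right]
        rfl
      have h2 : adjoint T (T (R (w i))) = w i - ((t ^ 2 : ℝ) : ℂ) • R (w i) :=
        eq_sub_of_add_eq (hR1 (w i))
      rw [h1, h2, inner_sub_right, inner_smul_right, inner_self_eq_norm_sq_to_K, Complex.sub_re,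
        Complex.re_ofReal_mul]
      have h3 := defect T ht0 (y i) (hR1 (w i))
      have h4 : (t * ‖y i‖ + ‖w i - adjoint T (y i)‖) * ‖w i‖ ≤ (k + k) * ‖w i‖ := by
        gcongr
        · exact hty i
        · exact hy i
      have h5 : (((‖w i‖ : ℝ) : ℂ) ^ 2).re = ‖w i‖ ^ 2 := by
        rw [← Complex.ofReal_pow, Complex.ofReal_re]
      have h6 : (((RCLike.ofReal ‖w i‖ : ℂ)) ^ 2).re = ‖w i‖ ^ 2 := h5
      rw [h6]
      linarith
    have s1 := Finset.sum_le_sum fun i (_ : i ∈ Finset.univ) => hlow i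
    have s2 := Finset.sum_le_sum fun j (_ : j ∈ Finset.univ) => hup j
    rw [Finset.sum_sub_distrib, ← Finset.mul_sum] at s1
    linarith
  refine le_of_forall_pos_le_add fun η hη => ?_
  have h0 : 0 ≤ ∑ i, ‖w i‖ := Finset.sum_nonneg fun i _ => norm_nonneg _
  have h1 := key (η / (2 * (1 + ∑ i, ‖w i‖))) (by positivity)
  have h2 : 2 * (η / (2 * (1 + ∑ i, ‖w i‖))) * ∑ i, ‖w i‖ ≤ η := by
    rw [mul_div_assoc', div_mul_eq_mul_div, div_le_iff₀ (by positivity)]
    nlinarith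
  linarith

end Pool.Agent.H46Z.L2
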