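import Mathlib
import Pool.Agent.H46Z.L2.Defs
import Pool.Agent.H46Z.L2.Dim

/-!
# Operators on `ℓ²(H × I)` and the basic inequality for the first `L²`-Betti number
-/

set_option autoImplicit false

open scoped InnerProductSpace

namespace Pool.Agent.H46Z.L2

/-- square summability -/
abbrev Sq {α : Type} (f : α → ℂ) : Prop := Memℓp (E := fun _ : α => ℂ) f 2

theorem sq_iff {α : Type} (f : α → ℂ) : Sq f ↔ Summable fun i => ‖f i‖ ^ (2 : ℝ) := by
  have := memℓp_gen_iff (E := fun _ : α => ℂ) (p := 2) (by norm_num) (f := f)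
  simpa using this

theorem Sq.comp {α β : Type} {f : α → ℂ} (hf : Sq f) {σ : β → α} (hσ : Function.Injective σ) :
    Sq (fun b => f (σ b)) := by
  rw [sq_iff] at hf ⊢
  exact hf.comp_injective hσ

theorem sq_prod {α I : Type} [Finite I] {f : α × I → ℂ} (hf : ∀ i, Sq fun a => f (a, i)) :
    Sq f := by
  rw [sq_iff, ← (Equiv.prodComm I α).summable_iff]
  refine (summable_prod_of_nonneg fun p => Real.rpow_nonneg (norm_nonneg _) _).2 ⟨fun i => ?_, Summable.of_finite⟩
  exact (sq_iff _).1 (hf i)

theorem cont_eval {α : Type} (a : α) : Continuous fun x : Ell α => x a :=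
  (lp.lipschitzWith_one_eval 2 a).continuous

/-- a linear map into `ℓ²` with continuous coordinates is continuous -/
noncomputable def mkOp {α β : Type} (L : Ell α →ₗ[ℂ] (β → ℂ)) (h1 : ∀ x, Sq (L x))
    (h2 : ∀ b, Continuous fun x => L x b) : Ell α →L[ℂ] Ell β :=
  let M : Ell α →ₗ[ℂ] Ell β :=
    { toFun := fun x => ⟨L x, h1 x⟩
      map_add' := fun x y => Subtype.ext (map_add L x y)
      map_smul' := fun c x => Subtype.ext (map_smul L c x) }
  { M with
    cont := M.continuous_of_isClosed_graph (by
      have : (M.graph : Set (Ell α × Ell β)) = ⋂ b, {p | p.2 b = L p.1 b} := by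
        ext p
        simp only [SetLike.mem_coe, LinearMap.mem_graph_iff, Set.mem_iInter, Set.mem_ofPred_eq]
        constructor
        · intro h b
          rw [h]
          rfl
        · intro h
          exact lp.ext (funext h)
      rw [this]
      exact isClosed_iInter fun b =>
        isClosed_eq ((cont_eval b).comp continuous_snd) ((h2 b).comp continuous_fst)) }

theorem mkOp_apply {α β : Type} (L : Ell α →ₗ[ℂ] (β → ℂ)) (h1 : ∀ x, Sq (L x))
    (h2 : ∀ b, Continuous fun x => L x b) (x : Ell α) (b : β) : mkOp L h1 h2 x b = L x b := rfl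

variable {H : Type} [Group H]

/-- left translation -/
def shift {I : Type} (h : H) : H × I ≃ H × I :=
  Equiv.prodCongr (Equiv.mulLeft h) (Equiv.refl I)

theorem shift_apply {I : Type} (h : H) (p : H × I) : shift h p = (h * p.1, p.2) := rfl

/-- the left regular action -/
noncomputable def reg {I : Type} (h : H) (x : Ell (H × I)) : Ell (H × I) :=
  ⟨fun p => x (shift h⁻¹ p), Sq.comp (lp.memℓp x) (shift h⁻¹).injective⟩

theorem reg_apply {I : Type} (h : H) (x : Ell (H × I)) (p : H × I) :
    reg h x p = x (h⁻¹ * p.1, p.2) := rfl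

open Classical in
theorem delta_self {α : Type} (a : α) : delta a a = 1 := lp.single_apply_self _ _ _

open Classical in
theorem delta_ne {α : Type} (a : α) {b : α} (h : b ≠ a) : delta a b = 0 :=
  lp.single_apply_ne _ _ _ h

open Classical in
theorem inner_delta_left {α : Type} (a : α) (x : Ell α) : ⟪delta a, x⟫_ℂ = ⟪1, x a⟫_ℂ :=
  lp.inner_single_left _ _ _

open Classical in
theorem inner_delta_right {α : Type} (a : α) (x : Ell α) : ⟪x, delta a⟫_ℂ = ⟪x a, 1⟫_ℂ :=
  lp.inner_single_right _ _ _

theorem reg_single {I : Type} (h : H) (i : I) :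
    reg h (delta (1, i) : Ell (H × I)) = delta (h, i) := by
  refine lp.ext (funext fun p => ?_)
  rw [reg_apply]
  by_cases hp : p = (h, i)
  · subst hp
    rw [delta_self]
    simp only [inv_mul_cancel]
    rw [delta_self]
  · rw [delta_ne _ hp, delta_ne]
    intro h1
    apply hp
    obtain ⟨h2, h3⟩ := Prod.ext_iff.1 h1
    exact Prod.ext (inv_mul_eq_one.1 h2).symm h3

/-- the standard frame -/
noncomputable def std (H I : Type) [Group H] [Fintype I] : Frame (Ell (H × I)) H I where
  act := reg
  vec i := delta (1, i)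
  adj h x y := by
    rw [lp.inner_eq_tsum, lp.inner_eq_tsum, ← (shift h).tsum_eq]
    refine tsum_congr fun p => ?_
    rw [reg_apply, reg_apply, shift_apply, inv_inv, inv_mul_cancel_left]
  pars x y := by
    refine (lp.hasSum_inner x y).prod_fiberwise fun h => ?_
    convert hasSum_fintype _ using 2 with i
    rw [reg_single, inner_delta_left, inner_delta_right]
    simp [mul_comm]

open Classical in
theorem norm_delta {α : Type} (a : α) : ‖delta a‖ = 1 := by
  rw [delta, lp.norm_single (by norm_num), norm_one]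

theorem norm_vec (I : Type) [Fintype I] (i : I) : ‖(std H I).vec i‖ = 1 := norm_delta _

/-- the boundary operator -/
noncomputable def bd (S : Finset H) : Ell (H × S) →L[ℂ] Ell (H × Unit) :=
  mkOp
    { toFun := fun x p => ∑ s : S, (x (p.1 * (s : H)⁻¹, s) - x (p.1, s))
      map_add' := fun x y => by
        funext p
        simp only [lp.coeFn_add, Pi.add_apply, ← Finset.sum_add_distrib]
        exact Finset.sum_congr rfl fun s _ => by ring
      map_smul' := fun c x => by
        funext p
        simp only [lp.coeFn_smul, Pi.smul_apply, smul_eq_mul, RingHom.id_apply, Finset.mul_sum]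
        exact Finset.sum_congr rfl fun s _ => by ring }
    (fun x => by
      refine sq_prod fun _ => Memℓp.finsetSum (E := fun _ : H => ℂ) Finset.univ
        (f := fun (s : S) g => x (g * (s : H)⁻¹, s) - x (g, s)) fun s _ => ?_
      refine Memℓp.sub (E := fun _ : H => ℂ) (f := fun g => x (g * (s : H)⁻¹, s))
        (g := fun g => x (g, s)) (Sq.comp (lp.memℓp x) ?_) (Sq.comp (lp.memℓp x) ?_)
      · intro g g' h
        exact mul_right_cancel (Prod.ext_iff.1 h).1
      · intro g g' h
        exact (Prod.ext_iff.1 h).1)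
    (fun p => continuous_finsetSum _ fun s _ => (cont_eval _).sub (cont_eval _))

theorem bd_apply (S : Finset H) (x : Ell (H × S)) (p : H × Unit) :
    bd S x p = ∑ s : S, (x (p.1 * (s : H)⁻¹, s) - x (p.1, s)) := rfl

theorem ker_bd (S : Finset H) : (bd S).ker = cycles S := by
  refine le_antisymm (fun x h => Submodule.subset_span fun g => ?_)
    (Submodule.span_le.2 fun x h => lp.ext (funext fun p => h p.1))
  have h1 : bd S x = 0 := h
  exact (bd_apply S x (g, ())).symm.trans (by rw [h1]; rfl)

theorem cyc_le (S : Finset H) :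
    ∑ s : S, ‖(bd S).kerᗮ.starProjection ((std H S).vec s)‖ ^ 2 ≤ 1 := by
  have := dim_le (std H S) (std H Unit) (bd S) (fun h x => lp.ext (funext fun p => by
    show bd S (reg h x) p = reg h (bd S x) p
    simp only [bd_apply, reg_apply, mul_assoc])) ⊤ (fun _ => trivial)
  refine this.trans ?_
  rw [Fintype.sum_unique, Submodule.starProjection_eq_self_iff.2 Submodule.mem_top, norm_vec]
  norm_num

theorem re_proj {X : Type} [NormedAddCommGroup X] [InnerProductSpace ℂ X] (K : Submodule ℂ X)
    [K.HasOrthogonalProjection] (x : X) :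
    (⟪x, K.starProjection x⟫_ℂ).re = ‖K.starProjection x‖ ^ 2 := by
  have h1 : ⟪x - K.starProjection x, K.starProjection x⟫_ℂ = 0 :=
    Submodule.inner_left_of_mem_orthogonal (K.starProjection_apply_mem x)
      (K.sub_starProjection_mem_orthogonal x)
  rw [inner_sub_left, sub_eq_zero] at h1
  rw [h1, inner_self_eq_norm_sq_to_K]
  simp [← Complex.ofReal_pow]

theorem proj_split {X : Type} [NormedAddCommGroup X] [InnerProductSpace ℂ X] [CompleteSpace X]
    (B K : Submodule ℂ X) (hK : Kᗮᗮ = K) (hBK : B ≤ K) (x : X) :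
    (K ⊓ Bᗮ).topologicalClosure.starProjection x = Bᗮ.starProjection x - Kᗮ.starProjection x := by
  have h1 : Kᗮ ≤ Bᗮ := Submodule.orthogonal_le hBK
  have h2 : Bᗮᗮ ≤ K := (Submodule.orthogonal_le h1).trans hK.le
  refine Submodule.eq_starProjection_of_mem_orthogonal ?_ ?_
  · refine Submodule.le_topologicalClosure _ ⟨?_, ?_⟩
    · have a : x - Kᗮ.starProjection x ∈ K := hK.le (Kᗮ.sub_starProjection_mem_orthogonal x)
      have b : x - Bᗮ.starProjection x ∈ K := h2 (Bᗮ.sub_starProjection_mem_orthogonal x)
      have := K.sub_mem a b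
      rwa [sub_sub_sub_cancel_left] at this
    · exact Bᗮ.sub_mem (Bᗮ.starProjection_apply_mem x) (h1 (Kᗮ.starProjection_apply_mem x))
  · rw [Submodule.orthogonal_closure]
    have a : x - Bᗮ.starProjection x ∈ (K ⊓ Bᗮ)ᗮ :=
      Submodule.orthogonal_le inf_le_right (Bᗮ.sub_starProjection_mem_orthogonal x)
    have b : Kᗮ.starProjection x ∈ (K ⊓ Bᗮ)ᗮ :=
      Submodule.orthogonal_le inf_le_left (Kᗮ.starProjection_apply_mem x)
    have := (K ⊓ Bᗮ)ᗮ.add_mem a b
    rwa [sub_add] at this

theorem cob_orth (S : Finset H) (F : H → ℂ) (y : Ell (H × S))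
    (hy : ∀ p : H × S, y p = F (p.1 * p.2) - F p.1) : y ∈ (boundaries S)ᗮ := by
  rw [Submodule.mem_orthogonal]
  intro x hx
  induction hx using Submodule.span_induction with
  | zero => exact inner_zero_left _
  | add a b _ _ ha hb => rw [inner_add_left, ha, hb, add_zero]
  | smul c a _ ha => rw [inner_smul_left, ha, mul_zero]
  | mem x hx =>
    obtain ⟨h1, h2⟩ := hx
    let σ : H × S ≃ H × S :=
      { toFun := fun p => (p.1 * (p.2 : H)⁻¹, p.2)
        invFun := fun p => (p.1 * (p.2 : H), p.2)
        left_inv := fun p => by simp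
        right_inv := fun p => by simp }
    have hs : ∀ k : H × S → ℂ, Summable fun p => k p * (starRingEnd ℂ) (x p) := by
      intro k
      refine summable_of_hasFiniteSupport (h2.subset fun p hp h => hp ?_)
      have h' : x p = 0 := h
      simp [h']
    have a := (hs fun p => F (p.1 * p.2)).hasSum
    have b := (hs fun p => F p.1).hasSum
    have c := (σ.hasSum_iff.2 a).sub b
    have d : HasSum (fun _ : H => (0 : ℂ)) _ := c.prod_fiberwise fun g => by
      convert hasSum_fintype _ using 1
      have := congrArg (fun z => F g * (starRingEnd ℂ) z) (h1 g)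
      simp only [map_zero, mul_zero, map_sum, Finset.mul_sum] at this
      rw [← this]
      refine Finset.sum_congr rfl fun s _ => ?_
      simp [σ, mul_sub]
    have e := hasSum_zero.unique d
    refine (lp.hasSum_inner x y).unique ?_
    rw [e]
    refine (a.sub b).congr_fun ?_
    intro p
    rw [hy]
    simp [sub_mul]

/-- an injective equivariant operator into the coboundaries bounds the Betti number from below -/
theorem b1L2_ge (S : Finset H) {I : Type} [Fintype I] (T : Ell (H × I) →L[ℂ] Ell (H × S))
    (hT : ∀ h x, T (reg h x) = reg h (T x)) (hi : ∀ x, T x = 0 → x = 0)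
    (ho : ∀ x, T x ∈ (boundaries S)ᗮ) : (Fintype.card I : ℝ) - 1 ≤ b1L2 S := by
  have h1 := dim_le (std H I) (std H S) T hT _ ho
  have h2 := cyc_le S
  have h3 : ∀ i, ‖T.kerᗮ.starProjection ((std H I).vec i)‖ ^ 2 = 1 := by
    intro i
    rw [Submodule.starProjection_eq_self_iff.2, norm_vec, one_pow]
    intro u hu
    rw [hi u hu, inner_zero_left]
  simp only [h3, Finset.sum_const, Finset.card_univ, nsmul_eq_mul, mul_one] at h1
  have h4 : (bd S).kerᗮᗮ = (bd S).ker := by
    rw [Submodule.orthogonal_orthogonal_eq_closure,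
      (bd S).isClosed_ker.submodule_topologicalClosure_eq]
  have h5 : boundaries S ≤ (bd S).ker := by
    rw [ker_bd]
    exact Submodule.span_mono fun x hx => hx.1
  have h6 : b1L2 S = ∑ s : S, (‖(boundaries S)ᗮ.starProjection ((std H S).vec s)‖ ^ 2 -
      ‖(bd S).kerᗮ.starProjection ((std H S).vec s)‖ ^ 2) := by
    rw [b1L2, ← ker_bd, vnDim]
    refine Finset.sum_congr rfl fun s _ => ?_
    rw [projCoeff, proj_split _ _ h4 h5, inner_sub_right, Complex.sub_re, re_proj, re_proj]
    rfl
  rw [h6, Finset.sum_sub_distrib]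
  linarith

end Pool.Agent.H46Z.L2
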