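import Mathlib

/-!
# The free product of `BS(1,4)` with a free group of rank two
-/

set_option autoImplicit false

open Group SemidirectProduct

namespace Pool.Agent.H46Z.L2

/-! ### Free groups are residually finite (same proof as in the start file VerbalQuotientRF) -/

section free

variable {X : Type}

open Classical in
/-- The finite set of suffix products of a word. -/
noncomputable def suf (L : List (X × Bool)) : Finset (FreeGroup X) :=
  (L.tails.map FreeGroup.mk).toFinset

theorem mem_suf (L L' : List (X × Bool)) (h : L' <:+ L) : FreeGroup.mk L' ∈ suf L := by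
  classical
  simp only [suf, List.mem_toFinset, List.mem_map, List.mem_tails]
  exact ⟨L', h, rfl⟩

/-- Left multiplication by a generator as a bijection between two subsets of the suffix products. -/
def pact (L : List (X × Bool)) (x : X) :
    {u : {u // u ∈ suf L} // FreeGroup.of x * u.1 ∈ suf L} ≃
      {u : {u // u ∈ suf L} // (FreeGroup.of x)⁻¹ * u.1 ∈ suf L} where
  toFun := fun u => ⟨⟨FreeGroup.of x * u.1.1, u.2⟩, by simp⟩
  invFun := fun u => ⟨⟨(FreeGroup.of x)⁻¹ * u.1.1, u.2⟩, by simp⟩
  left_inv := fun u => by ext; simp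
  right_inv := fun u => by ext; simp

open Classical in
/-- The permutation by which a generator acts on the suffix products. -/
noncomputable def act1 (L : List (X × Bool)) (x : X) : Equiv.Perm {u // u ∈ suf L} :=
  (pact L x).extendSubtype

theorem act1_apply (L : List (X × Bool)) (x : X) (u : {u // u ∈ suf L})
    (h : FreeGroup.of x * u.1 ∈ suf L) : act1 L x u = ⟨FreeGroup.of x * u.1, h⟩ := by
  classical
  exact Equiv.extendSubtype_apply_of_mem (pact L x) u h

theorem act_suffix (L : List (X × Bool)) : ∀ (L' : List (X × Bool)) (_ : L' <:+ L),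
    (FreeGroup.lift (act1 L) (FreeGroup.mk L') ⟨1, mem_suf L [] (List.nil_suffix)⟩).1 =
      FreeGroup.mk L' := by
  intro L'
  induction L' with
  | nil =>
    intro h
    rw [← FreeGroup.one_eq_mk, map_one]
    rfl
  | cons a L' ih =>
    intro h
    have h' : L' <:+ L := (List.suffix_cons a L').trans h
    obtain ⟨x, b⟩ := a
    have hmk : FreeGroup.mk ((x, b) :: L') = FreeGroup.mk [(x, b)] * FreeGroup.mk L' := by
      rw [FreeGroup.mul_mk]; rfl
    have hmem := mem_suf L _ h
    have ih2 : FreeGroup.lift (act1 L) (FreeGroup.mk L') ⟨1, mem_suf L [] (List.nil_suffix)⟩ =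
      ⟨FreeGroup.mk L', mem_suf L L' h'⟩ := Subtype.ext (ih h')
    rw [hmk, map_mul, Equiv.Perm.mul_apply, ih2]
    rw [hmk] at hmem
    cases b with
    | true =>
      have h1 : FreeGroup.mk [(x, true)] = FreeGroup.of x := rfl
      rw [h1] at hmem
      rw [h1, FreeGroup.lift_apply_of, act1_apply L x _ hmem]
    | false =>
      have h1 : FreeGroup.mk [(x, false)] = (FreeGroup.of x)⁻¹ := rfl
      rw [h1] at hmem
      rw [h1, map_inv, FreeGroup.lift_apply_of]
      have h2 : act1 L x ⟨(FreeGroup.of x)⁻¹ * FreeGroup.mk L', hmem⟩ =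
          ⟨FreeGroup.mk L', mem_suf L L' h'⟩ := by
        rw [act1_apply L x _ (by simpa using mem_suf L L' h')]
        apply Subtype.ext
        simp
      rw [← h2, ← Equiv.Perm.mul_apply, inv_mul_cancel]
      rfl

theorem free_sep (w : FreeGroup X) (hw : w ≠ 1) :
    ∃ (B : Type) (_ : Fintype B) (_ : DecidableEq B) (φ : FreeGroup X →* Equiv.Perm B), φ w ≠ 1 := by
  classical
  obtain ⟨L, rfl⟩ : ∃ L, FreeGroup.mk L = w := Quot.exists_rep w
  refine ⟨{u // u ∈ suf L}, inferInstance, inferInstance, FreeGroup.lift (act1 L), ?_⟩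
  intro h
  have h1 := act_suffix L L List.suffix_rfl
  rw [h] at h1
  exact hw h1.symm

end free

/-! ### The free product of a group with the free group of rank two -/

section FP

variable (A : Type) [Group A]

/-- the shift action on the free group -/
def sh : A →* MulAut (FreeGroup (A × Bool)) where
  toFun x := FreeGroup.freeGroupCongr (Equiv.prodCongr (Equiv.mulLeft x) (Equiv.refl Bool))
  map_one' := by
    apply MulEquiv.toMonoidHom_injective
    ext p
    simp
  map_mul' x y := by
    apply MulEquiv.toMonoidHom_injective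
    ext p
    simp [Prod.map, mul_assoc]

variable {A}

theorem sh_of (x y : A) (i : Bool) : sh A x (FreeGroup.of (y, i)) = FreeGroup.of (x * y, i) := by
  simp [sh]

variable (A)

/-- the free product of `A` with the free group of rank two -/
abbrev FP : Type := FreeGroup (A × Bool) ⋊[sh A] A

variable {A}

/-- the free generators -/
def cc (i : Bool) : FP A := inl (FreeGroup.of (1, i))

theorem inl_of (y : A) (i : Bool) :
    (inl (FreeGroup.of (y, i)) : FP A) = inr y * cc i * (inr y)⁻¹ := by
  rw [cc, ← map_inv, ← inl_aut, sh_of, mul_one]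

/-- the universal property -/
def liftFP {P : Type} [Group P] (fa : A →* P) (c : Bool → P) : FP A →* P :=
  SemidirectProduct.lift (FreeGroup.lift fun p => fa p.1 * c p.2 * (fa p.1)⁻¹) fa (by
    intro x
    ext p
    obtain ⟨y, i⟩ := p
    simp [sh_of, mul_assoc])

theorem liftFP_inr {P : Type} [Group P] (fa : A →* P) (c : Bool → P) (x : A) :
    liftFP fa c (inr x) = fa x := by simp [liftFP]

theorem liftFP_cc {P : Type} [Group P] (fa : A →* P) (c : Bool → P) (i : Bool) :
    liftFP fa c (cc i) = c i := by simp [liftFP, cc]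

theorem FP_top (K : Subgroup (FP A)) (h1 : ∀ x, inr x ∈ K) (h2 : ∀ i, cc i ∈ K) : K = ⊤ := by
  rw [eq_top_iff]
  intro g _
  rw [← inl_left_mul_inr_right g]
  refine K.mul_mem ?_ (h1 _)
  induction g.left using FreeGroup.induction_on with
  | C1 => rw [map_one]; exact K.one_mem
  | of p =>
    obtain ⟨y, i⟩ := p
    have := inl_of y i
    exact this ▸ K.mul_mem (K.mul_mem (h1 y) (h2 i)) (K.inv_mem (h1 y))
  | inv_of p h => rw [map_inv]; exact K.inv_mem h
  | mul v w hv hw => rw [map_mul]; exact K.mul_mem hv hw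

theorem FP_tf (hA : ∀ x : A, IsOfFinOrder x → x = 1) (g : FP A) (hg : IsOfFinOrder g) : g = 1 := by
  have h1 : g.right = 1 := hA _ (rightHom.isOfFinOrder hg)
  have h2 : g = inl g.left := by
    conv_lhs => rw [← inl_left_mul_inr_right g, h1, map_one, mul_one]
  rw [h2, inl_injective.isOfFinOrder_iff] at hg
  rw [h2, hg.eq_one', map_one]

theorem exists_potential (u : FP A × Bool → ℂ) :
    ∃ f : FP A → ℂ, f 1 = 0 ∧ (∀ g x, f (g * inr x) = f g) ∧
      ∀ g i, f (g * cc i) = f g + u (g, i) := by
  let pa : A →* Equiv.Perm (FP A × ℂ) :=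
    { toFun := fun x => Equiv.prodCongr (Equiv.mulRight (inr x)⁻¹) (Equiv.refl ℂ)
      map_one' := by ext p <;> simp
      map_mul' := fun x y => by ext p <;> simp [mul_assoc] }
  let pc : Bool → Equiv.Perm (FP A × ℂ) := fun i =>
    { toFun := fun p => (p.1 * (cc i)⁻¹, p.2 - u (p.1 * (cc i)⁻¹, i))
      invFun := fun p => (p.1 * cc i, p.2 + u (p.1, i))
      left_inv := fun p => by simp
      right_inv := fun p => by simp }
  let Φ := liftFP pa pc
  have hfst : ∀ g : FP A, ∀ p : FP A × ℂ, (Φ g p).1 = p.1 * g⁻¹ := by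
    let K : Subgroup (FP A) :=
      { carrier := {g | ∀ p : FP A × ℂ, (Φ g p).1 = p.1 * g⁻¹}
        one_mem' := fun p => by simp
        mul_mem' := fun {x y} hx hy p => by
          rw [map_mul, Equiv.Perm.mul_apply, hx, hy, mul_inv_rev, mul_assoc]
        inv_mem' := fun {x} hx p => by
          have := hx (Φ x⁻¹ p)
          rw [← Equiv.Perm.mul_apply, ← map_mul, mul_inv_cancel, map_one,
            Equiv.Perm.one_apply] at this
          rw [this, inv_inv, inv_mul_cancel_right] }
    have hK : K = ⊤ := FP_top K (fun x p => by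
      show (Φ (inr x) p).1 = _
      rw [liftFP_inr]; rfl) (fun i p => by
      show (Φ (cc i) p).1 = _
      rw [liftFP_cc]; rfl)
    intro g
    have : g ∈ K := hK ▸ Subgroup.mem_top g
    exact this
  refine ⟨fun g => (Φ g⁻¹ (1, 0)).2, by simp, fun g x => ?_, fun g i => ?_⟩
  · show (Φ (g * inr x)⁻¹ (1, 0)).2 = _
    rw [mul_inv_rev, map_mul, ← map_inv, Equiv.Perm.mul_apply, liftFP_inr]
    rfl
  · show (Φ (g * cc i)⁻¹ (1, 0)).2 = _
    rw [mul_inv_rev, map_mul, map_inv, Equiv.Perm.mul_apply, liftFP_cc]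
    have h1 := hfst g⁻¹ (1, 0)
    rw [inv_inv, one_mul] at h1
    show (Φ g⁻¹ (1, 0)).2 + u ((Φ g⁻¹ (1, 0)).1, i) = _
    rw [h1]

theorem finiteIndex_comap {G G' : Type} [Group G] [Group G'] (f : G →* G') (K : Subgroup G')
    [K.FiniteIndex] : (K.comap f).FiniteIndex := by
  refine ⟨?_⟩
  rw [Subgroup.index_comap]
  exact (Subgroup.instFiniteIndex_subgroupOf K f.range).index_ne_zero

theorem exists_sep [ResiduallyFinite A] (s : Finset A) :
    ∃ N : FiniteIndexNormalSubgroup A, ∀ x ∈ s, x ≠ 1 → x ∉ N := by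
  classical
  induction s using Finset.induction_on with
  | empty => exact ⟨FiniteIndexNormalSubgroup.ofSubgroup ⊤, by simp⟩
  | insert y s _ ih =>
    obtain ⟨N, hN⟩ := ih
    by_cases hy : y = 1
    · refine ⟨N, fun x hx h1 => ?_⟩
      rcases Finset.mem_insert.1 hx with rfl | hx
      · exact absurd hy h1
      · exact hN x hx h1
    · obtain ⟨M, hM⟩ := exists_finiteIndexNormalSubgroup_notMem y hy
      refine ⟨N ⊓ M, fun x hx h1 h2 => ?_⟩
      have h3 : x ∈ N.toSubgroup ⊓ M.toSubgroup := h2
      rcases Finset.mem_insert.1 hx with rfl | hx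
      · exact hM h3.2
      · exact hN x hx h1 h3.1

theorem FP_rf [ResiduallyFinite A] : ResiduallyFinite (FP A) := by
  classical
  rw [residuallyFinite_iff_exists_finiteIndex]
  intro g hg
  by_cases h1 : g.right = 1
  · have h2 : g = inl g.left := by
      conv_lhs => rw [← inl_left_mul_inr_right g, h1, map_one, mul_one]
    have h3 : g.left ≠ 1 := fun h => hg (by rw [h2, h, map_one])
    obtain ⟨L, hL⟩ : ∃ L, FreeGroup.mk L = g.left := Quot.exists_rep g.left
    let s : Finset A := (L.map fun p => p.1.1).toFinset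
    obtain ⟨N, hN⟩ := exists_sep ((s ×ˢ s).image fun p => p.1⁻¹ * p.2)
    let Q := A ⧸ N.toSubgroup
    let π : A →* Q := QuotientGroup.mk' N.toSubgroup
    have hinj : Set.InjOn π s := by
      intro x hx y hy h
      by_contra hxy
      refine hN (x⁻¹ * y) (Finset.mem_image.2 ⟨(x, y), Finset.mem_product.2 ⟨hx, hy⟩, rfl⟩)
        (fun h' => hxy (inv_mul_eq_one.1 h')) ?_
      exact QuotientGroup.eq.1 h
    let m : FreeGroup (A × Bool) →* FreeGroup (Q × Bool) := FreeGroup.map (Prod.map π id)
    have hm : m g.left ≠ 1 := by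
      intro h
      apply h3
      have h4 : FreeGroup.map (Prod.map (Function.invFunOn π s) id) (m g.left) = g.left := by
        rw [← hL]
        simp only [m, FreeGroup.map.mk, List.map_map]
        congr 1
        conv_rhs => rw [← List.map_id L]
        refine List.map_congr_left fun p hp => ?_
        have h5 : p.1.1 ∈ s := List.mem_toFinset.2 (List.mem_map.2 ⟨p, hp, rfl⟩)
        have h6 := hinj.leftInvOn_invFunOn h5
        obtain ⟨⟨y, i⟩, b⟩ := p
        simp only [Function.comp_apply, Prod.map, id] at h6 ⊢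
        rw [h6]
      rw [← h4, h, map_one]
    obtain ⟨B, _, _, ψ, hψ⟩ := free_sep _ hm
    let f : FP A →* FP Q := SemidirectProduct.map m π (by
      intro x
      ext p
      obtain ⟨y, i⟩ := p
      simp [m, sh_of])
    have hfin : ((ψ.ker).map (inl : _ →* FP Q)).FiniteIndex := by
      refine ⟨?_⟩
      rw [Subgroup.index_map_of_injective _ inl_injective, range_inl_eq_ker_rightHom]
      exact mul_ne_zero (Subgroup.finiteIndex_ker ψ).index_ne_zero
        (Subgroup.finiteIndex_ker _).index_ne_zero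
    refine ⟨_, finiteIndex_comap f ((ψ.ker).map (inl : _ →* FP Q)), ?_⟩
    rintro ⟨v, hv, hv'⟩
    apply hψ
    have : v = m g.left := congrArg SemidirectProduct.left hv'
    rw [← this]
    exact hv
  · obtain ⟨N, hN⟩ := exists_finiteIndexNormalSubgroup_notMem _ h1
    exact ⟨_, finiteIndex_comap rightHom N.toSubgroup, hN⟩

end FP

/-! ### The group `BS(1,4)` -/

theorem isUnit_four : IsUnit (4 : ℤ_[3]) := by
  rw [PadicInt.isUnit_iff]
  have := (PadicInt.norm_natCast_eq_one_iff (p := 3) (n := 4)).2 (by norm_num)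
  exact_mod_cast this

/-- the unit four -/
noncomputable def u4 : ℤ_[3]ˣ := isUnit_four.unit

theorem u4_val : (u4 : ℤ_[3]) = 4 := rfl

/-- affine maps `x ↦ 4 ^ k x + b` of the 3-adic integers -/
@[ext] structure Aff where
  k : ℤ
  b : ℤ_[3]

noncomputable instance : Mul Aff := ⟨fun x y => ⟨x.k + y.k, x.b + (u4 ^ x.k : ℤ_[3]ˣ) * y.b⟩⟩
noncomputable instance : One Aff := ⟨⟨0, 0⟩⟩
noncomputable instance : Inv Aff := ⟨fun x => ⟨-x.k, -((u4 ^ (-x.k) : ℤ_[3]ˣ) * x.b)⟩⟩

@[simp] theorem mul_k (x y : Aff) : (x * y).k = x.k + y.k := rfl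
@[simp] theorem mul_b (x y : Aff) : (x * y).b = x.b + (u4 ^ x.k : ℤ_[3]ˣ) * y.b := rfl
@[simp] theorem one_k : (1 : Aff).k = 0 := rfl
@[simp] theorem one_b : (1 : Aff).b = 0 := rfl
@[simp] theorem inv_k (x : Aff) : (x⁻¹).k = -x.k := rfl
@[simp] theorem inv_b (x : Aff) : (x⁻¹).b = -((u4 ^ (-x.k) : ℤ_[3]ˣ) * x.b) := rfl

noncomputable instance : Group Aff := Group.ofLeftAxioms
  (fun x y z => by
    ext
    · simp [add_assoc]
    · simp only [mul_b, mul_k, zpow_add, Units.val_mul]; ring)
  (fun x => by ext <;> simp)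
  (fun x => by ext <;> simp)

/-- the exponent -/
noncomputable def expo : Aff →* Multiplicative ℤ where
  toFun x := Multiplicative.ofAdd x.k
  map_one' := rfl
  map_mul' _ _ := rfl

theorem pow_of_k (x : Aff) (h : x.k = 0) (n : ℕ) : x ^ n = ⟨0, n * x.b⟩ := by
  induction n with
  | zero => ext <;> simp
  | succ n ih =>
    rw [pow_succ, ih]
    ext
    · simp [h]
    · simp; ring

theorem Aff_tf (x : Aff) (hx : IsOfFinOrder x) : x = 1 := by
  have h1 : x.k = 0 := (expo.isOfFinOrder hx).eq_one'
  obtain ⟨n, hn, h⟩ := isOfFinOrder_iff_pow_eq_one.1 hx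
  rw [pow_of_k x h1] at h
  have h2 : (n : ℤ_[3]) * x.b = 0 := congrArg Aff.b h
  ext
  · exact h1
  · rcases mul_eq_zero.1 h2 with h3 | h3
    · exact absurd (Nat.cast_eq_zero.1 h3) hn.ne'
    · exact h3

/-- the affine action on a quotient ring -/
noncomputable def redu {R : Type} [CommRing R] (ρ : ℤ_[3] →+* R) : Aff →* Equiv.Perm R :=
  MonoidHom.toHomPerm
    { toFun := fun x => (fun r => ρ x.b + ρ (u4 ^ x.k : ℤ_[3]ˣ) * r : Function.End R)
      map_one' := by funext r; simp [Function.End.one_def]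
      map_mul' := fun x y => by
        funext r
        show ρ (x * y).b + ρ (u4 ^ (x * y).k : ℤ_[3]ˣ) * r =
          ρ x.b + ρ (u4 ^ x.k : ℤ_[3]ˣ) * (ρ y.b + ρ (u4 ^ y.k : ℤ_[3]ˣ) * r)
        simp only [mul_b, mul_k, zpow_add, Units.val_mul, map_add, map_mul]
        ring }

theorem redu_apply {R : Type} [CommRing R] (ρ : ℤ_[3] →+* R) (x : Aff) (r : R) :
    redu ρ x r = ρ x.b + ρ (u4 ^ x.k : ℤ_[3]ˣ) * r := rfl

instance : ResiduallyFinite Aff := by
  apply residuallyFinite_of_forall_exists_finite_monoidHom.{0}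
  intro g hg
  by_cases h : g.k = 0
  · have h1 : g.b ≠ 0 := fun h1 => hg (Aff.ext h h1)
    have h2 : ∃ n, PadicInt.toZModPow n g.b ≠ 0 := by
      by_contra h2
      push Not at h2
      exact h1 (PadicInt.ext_of_toZModPow.1 fun n => by rw [h2 n, map_zero])
    obtain ⟨n, hn⟩ := h2
    refine ⟨Equiv.Perm (ZMod (3 ^ n)), inferInstance, inferInstance, redu (PadicInt.toZModPow n), ?_⟩
    intro h3
    have h4 := redu_apply (PadicInt.toZModPow n) g 0
    rw [h3, mul_zero, add_zero] at h4
    exact hn h4.symm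
  · refine ⟨Multiplicative (ZMod (g.k.natAbs + 1)), inferInstance, inferInstance,
      (AddMonoidHom.toMultiplicative (Int.castAddHom _)).comp expo, ?_⟩
    intro h3
    have h4 : ((g.k : ℤ) : ZMod (g.k.natAbs + 1)) = 0 := h3
    rw [ZMod.intCast_zmod_eq_zero_iff_dvd] at h4
    have h5 := Int.natAbs_le_of_dvd_ne_zero h4 h
    rw [Int.natAbs_natCast] at h5
    omega

/-- reduction of the translation part modulo three -/
noncomputable def mod3 : Aff →* Multiplicative (ZMod 3) where
  toFun x := Multiplicative.ofAdd (PadicInt.toZMod x.b)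
  map_one' := by simp
  map_mul' x y := by
    have h1 : Units.map (PadicInt.toZMod (p := 3)).toMonoidHom u4 = 1 := by
      ext
      show PadicInt.toZMod (4 : ℤ_[3]) = 1
      rw [map_ofNat]
      rfl
    have h2 : PadicInt.toZMod ((u4 ^ x.k : ℤ_[3]ˣ) : ℤ_[3]) = 1 := by
      have h3 := congrArg (fun z : (ZMod 3)ˣ => ((z ^ x.k : (ZMod 3)ˣ) : ZMod 3)) h1
      simp only [one_zpow, Units.val_one, ← map_zpow] at h3
      exact h3
    rw [mul_b, map_add, map_mul, h2, one_mul, ofAdd_add]

/-- the dilation -/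
noncomputable def a0 : Aff := ⟨1, 0⟩
/-- the translation -/
noncomputable def b0 : Aff := ⟨0, 1⟩

theorem rel0 : a0 * b0 * a0⁻¹ = b0 ^ 4 := by
  rw [pow_of_k b0 rfl]
  ext
  · simp [a0, b0]
  · simp [a0, b0, u4_val]

/-- the group `BS(1,4)` -/
abbrev BS : Type := Subgroup.closure ({a0, b0} : Set Aff)

/-- the counterexample -/
abbrev GG : Type := FP BS

/-- generator -/
noncomputable def aS : BS := ⟨a0, Subgroup.subset_closure (by simp)⟩
/-- generator -/
noncomputable def bS : BS := ⟨b0, Subgroup.subset_closure (by simp)⟩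
/-- generator -/
noncomputable def ga : GG := inr aS
/-- generator -/
noncomputable def gb : GG := inr bS

theorem GG_top (K : Subgroup GG) (h1 : ga ∈ K) (h2 : gb ∈ K) (h3 : ∀ i, cc i ∈ K) : K = ⊤ := by
  refine FP_top K ?_ h3
  rintro ⟨x, hx⟩
  induction hx using Subgroup.closure_induction with
  | mem x hx =>
    rcases hx with rfl | rfl
    · exact h1
    · exact h2
  | one => exact (map_one (inr : BS →* GG)) ▸ K.one_mem
  | mul x y hx hy px py =>
    have := K.mul_mem px py
    rwa [← map_mul] at this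
  | inv x hx px =>
    have := K.inv_mem px
    rwa [← map_inv] at this

theorem GG_rel : ga * gb * ga⁻¹ = gb ^ 4 := by
  rw [ga, gb, ← map_inv, ← map_mul, ← map_mul, ← map_pow]
  congr 1
  exact Subtype.ext rel0

theorem GG_tf (g : GG) (hg : IsOfFinOrder g) : g = 1 :=
  FP_tf (fun x hx => Subtype.ext (Aff_tf _ ((Subgroup.subtype _).isOfFinOrder hx))) g hg

theorem GG_rf : ResiduallyFinite GG := FP_rf

theorem GG_fg : Group.FG GG := by
  rw [Group.fg_iff]
  refine ⟨{ga, gb, cc false, cc true}, GG_top _ ?_ ?_ ?_, by simp⟩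
  · exact Subgroup.subset_closure (by simp)
  · exact Subgroup.subset_closure (by simp)
  · intro i
    cases i <;> exact Subgroup.subset_closure (by simp)

theorem ga_inf : ¬ IsOfFinOrder ga := by
  intro h
  have h1 : aS = 1 := inr_injective ((GG_tf _ h).trans (map_one _).symm)
  have h2 : a0.k = (1 : Aff).k := congrArg (fun x : BS => x.1.k) h1
  simp [a0] at h2

theorem GG_pot (u : GG × Bool → ℂ) : ∃ f : GG → ℂ, f 1 = 0 ∧ (∀ g, f (g * ga) = f g) ∧
    (∀ g, f (g * gb) = f g) ∧ ∀ g i, f (g * cc i) = f g + u (g, i) := by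
  obtain ⟨f, h0, h1, h2⟩ := exists_potential u
  exact ⟨f, h0, fun g => h1 g _, fun g => h1 g _, h2⟩

/-- Every homomorphism to the group of order three lifts to the integers. -/
def Lifts (G : Type) [Group G] : Prop :=
  ∀ φ : G →* Multiplicative (ZMod 3), ∃ ψ : G →* Multiplicative ℤ,
    ∀ g, (((ψ g).toAdd : ℤ) : ZMod 3) = (φ g).toAdd

theorem GG_not_lifts : ¬ Lifts GG := by
  intro h
  obtain ⟨ψ, hψ⟩ := h ((mod3.comp (Subgroup.subtype _)).comp rightHom)
  have h1 := hψ gb
  have h2 := congrArg (fun g => (ψ g).toAdd) GG_rel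
  simp only [map_mul, map_inv, map_pow, toAdd_mul, toAdd_inv, toAdd_pow, nsmul_eq_mul] at h2
  have h3 : (ψ gb).toAdd = 0 := by push_cast at h2; omega
  rw [h3] at h1
  have h4 : (((mod3.comp (Subgroup.subtype _)).comp rightHom) gb).toAdd = 1 := by
    show PadicInt.toZMod (1 : ℤ_[3]) = 1
    exact map_one _
  rw [h4] at h1
  exact absurd h1 (by decide)

theorem Lifts.of_equiv {G G' : Type} [Group G] [Group G'] (e : G ≃* G') (h : Lifts G') :
    Lifts G := by
  intro φ
  obtain ⟨ψ, hψ⟩ := h (φ.comp e.symm.toMonoidHom)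
  refine ⟨ψ.comp e.toMonoidHom, fun g => ?_⟩
  have := hψ (e g)
  simpa using this

/-- the reduction map -/
def red3 : Multiplicative ℤ →* Multiplicative (ZMod 3) :=
  AddMonoidHom.toMultiplicative (Int.castAddHom _)

theorem lifts_of_free (G : Type) [Group G] [IsFreeGroup G] : Lifts G := by
  intro φ
  let ψ : G →* Multiplicative ℤ := IsFreeGroup.lift fun a =>
    Multiplicative.ofAdd (((φ (IsFreeGroup.of a)).toAdd.val : ℕ) : ℤ)
  have : red3.comp ψ = φ := by
    refine IsFreeGroup.ext_hom fun a => ?_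
    simp [ψ, red3]
  exact ⟨ψ, fun g => congrArg (fun f : G →* Multiplicative (ZMod 3) => (f g).toAdd) this⟩

theorem lifts_presented {α : Type} (r : FreeGroup α) (φ : PresentedGroup {r} →* Multiplicative (ZMod 3))
    (n : α → ℤ) (h1 : ∀ x, ((n x : ℤ) : ZMod 3) = (φ (PresentedGroup.of x)).toAdd)
    (h2 : FreeGroup.lift (fun x => Multiplicative.ofAdd (n x)) r = 1) :
    ∃ ψ : PresentedGroup {r} →* Multiplicative ℤ,
      ∀ g, (((ψ g).toAdd : ℤ) : ZMod 3) = (φ g).toAdd := by
  let ψ : PresentedGroup {r} →* Multiplicative ℤ :=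
    PresentedGroup.toGroup (f := fun x => Multiplicative.ofAdd (n x)) (by
      rintro _ rfl
      exact h2)
  have : red3.comp ψ = φ := by
    refine PresentedGroup.ext fun x => ?_
    simp only [ψ, MonoidHom.comp_apply, PresentedGroup.toGroup.of]
    exact congrArg Multiplicative.ofAdd (h1 x)
  exact ⟨ψ, fun g => congrArg (fun f : _ →* Multiplicative (ZMod 3) => (f g).toAdd) this⟩

end Pool.Agent.H46Z.L2
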