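import Mathlib
import Pool.Agent.H46Z.L2.Ell

/-!
# Lower bound for the first `L²`-Betti numbers of finite index subgroups
-/

set_option autoImplicit false

namespace Pool.Agent.H46Z.L2

variable {G : Type} [Group G]

/-- generators with a potential for every prescribed jump along the free generators -/
structure Pot (G : Type) [Group G] where
  a : G
  b : G
  c : Bool → G
  gen : ∀ K : Subgroup G, a ∈ K → b ∈ K → (∀ i, c i ∈ K) → K = ⊤
  pot : ∀ u : G × Bool → ℂ, ∃ f : G → ℂ, f 1 = 0 ∧ (∀ g, f (g * a) = f g) ∧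
    (∀ g, f (g * b) = f g) ∧ ∀ g i, f (g * c i) = f g + u (g, i)
  inf : ¬ IsOfFinOrder a

theorem Pot.ind (P : Pot G) (Q : G → Prop) (h1 : Q 1) (hm : ∀ x y, Q x → Q y → Q (x * y))
    (hi : ∀ x, Q x → Q x⁻¹) (ha : Q P.a) (hb : Q P.b) (hc : ∀ i, Q (P.c i)) (g : G) : Q g := by
  let K : Subgroup G :=
    { carrier := {x | Q x}
      one_mem' := h1
      mul_mem' := fun {x y} => hm x y
      inv_mem' := fun {x} => hi x }
  have : g ∈ K := (P.gen K ha hb hc) ▸ Subgroup.mem_top g
  exact this

theorem Pot.uniq (P : Pot G) (f : G → ℂ) (h1 : f 1 = 0) (ha : ∀ g, f (g * P.a) = f g)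
    (hb : ∀ g, f (g * P.b) = f g) (hc : ∀ g i, f (g * P.c i) = f g) (g : G) : f g = 0 := by
  have := P.ind (fun x => ∀ g, f (g * x) = f g) (fun g => by rw [mul_one])
    (fun x y hx hy g => by rw [← mul_assoc, hy, hx])
    (fun x hx g => by rw [← hx (g * x⁻¹), inv_mul_cancel_right]) ha hb (fun i g => hc g i) g 1
  rwa [one_mul, h1] at this

/-- the potential -/
noncomputable def Pot.f (P : Pot G) (u : G × Bool → ℂ) : G → ℂ := (P.pot u).choose

theorem Pot.f1 (P : Pot G) (u : G × Bool → ℂ) : P.f u 1 = 0 := (P.pot u).choose_spec.1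
theorem Pot.fa (P : Pot G) (u : G × Bool → ℂ) (g : G) : P.f u (g * P.a) = P.f u g :=
  (P.pot u).choose_spec.2.1 g
theorem Pot.fb (P : Pot G) (u : G × Bool → ℂ) (g : G) : P.f u (g * P.b) = P.f u g :=
  (P.pot u).choose_spec.2.2.1 g
theorem Pot.fc (P : Pot G) (u : G × Bool → ℂ) (g : G) (i : Bool) :
    P.f u (g * P.c i) = P.f u g + u (g, i) := (P.pot u).choose_spec.2.2.2 g i

theorem Pot.f_add (P : Pot G) (u v : G × Bool → ℂ) (g : G) :
    P.f (u + v) g = P.f u g + P.f v g :=
  sub_eq_zero.1 (P.uniq (fun g => P.f (u + v) g - (P.f u g + P.f v g)) (by simp [P.f1])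
    (fun g => by simp only [P.fa]) (fun g => by simp only [P.fb])
    (fun g i => by simp only [P.fc, Pi.add_apply]; ring) g)

theorem Pot.f_smul (P : Pot G) (c : ℂ) (u : G × Bool → ℂ) (g : G) :
    P.f (c • u) g = c * P.f u g :=
  sub_eq_zero.1 (P.uniq (fun g => P.f (c • u) g - c * P.f u g) (by simp [P.f1])
    (fun g => by simp only [P.fa]) (fun g => by simp only [P.fb])
    (fun g i => by simp only [P.fc, Pi.smul_apply, smul_eq_mul]; ring) g)

theorem Pot.f_shift (P : Pot G) (x : G) (u : G × Bool → ℂ) (g : G) :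
    P.f (fun p => u (x * p.1, p.2)) g = P.f u (x * g) - P.f u x :=
  sub_eq_zero.1 (P.uniq (fun g => P.f (fun p => u (x * p.1, p.2)) g - (P.f u (x * g) - P.f u x))
    (by simp [P.f1])
    (fun g => by simp only [P.fa, ← mul_assoc]) (fun g => by simp only [P.fb, ← mul_assoc])
    (fun g i => by simp only [P.fc, ← mul_assoc]; ring) g)

theorem Pot.sq (P : Pot G) (u : G × Bool → ℂ) (hu : Sq u) (x : G) :
    Sq fun g => P.f u (g * x) - P.f u g := by
  refine P.ind (fun x => Sq fun g => P.f u (g * x) - P.f u g) ?_ ?_ ?_ ?_ ?_ ?_ x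
  · simp only [mul_one, sub_self]
    exact zero_memℓp
  · intro x y hx hy
    have := Memℓp.add (hy.comp (mul_left_injective x)) hx
    convert this using 2 with g
    simp [mul_assoc]
  · intro x hx
    have := Memℓp.neg (hx.comp (mul_left_injective x⁻¹))
    convert this using 2 with g
    simp
  · simp only [P.fa, sub_self]
    exact zero_memℓp
  · simp only [P.fb, sub_self]
    exact zero_memℓp
  · intro i
    simp only [P.fc, add_sub_cancel_left]
    exact hu.comp fun g g' h => (Prod.ext_iff.1 h).1

theorem Pot.cont (P : Pot G) {X : Type} [TopologicalSpace X] (U : X → G × Bool → ℂ)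
    (hU : ∀ p, Continuous fun z => U z p) (x g : G) :
    Continuous fun z => P.f (U z) (g * x) - P.f (U z) g := by
  refine P.ind (fun x => ∀ g, Continuous fun z => P.f (U z) (g * x) - P.f (U z) g)
    ?_ ?_ ?_ ?_ ?_ ?_ x g
  · intro g
    simp only [mul_one, sub_self]
    exact continuous_const
  · intro x y hx hy g
    have := (hy (g * x)).add (hx g)
    convert this using 2 with z
    simp [mul_assoc]
  · intro x hx g
    have := (hx (g * x⁻¹)).neg
    convert this using 2 with z
    simp
  · intro g
    simp only [P.fa, sub_self]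
    exact continuous_const
  · intro g
    simp only [P.fb, sub_self]
    exact continuous_const
  · intro i g
    simp only [P.fc, add_sub_cancel_left]
    exact hU _

theorem Pot.zero_of_sq (P : Pot G) (u : G × Bool → ℂ) (h : Sq (P.f u)) : u = 0 := by
  have h0 : ∀ g, P.f u g = 0 := by
    intro g
    have h1 : ∀ n : ℕ, P.f u (g * P.a ^ n) = P.f u g := by
      intro n
      induction n with
      | zero => simp
      | succ n ih => rw [pow_succ, ← mul_assoc, P.fa, ih]
    have h2 : Function.Injective fun n : ℕ => g * P.a ^ n :=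
      (mul_right_injective g).comp (injective_pow_iff_not_isOfFinOrder.2 P.inf)
    have h3 := (sq_iff _).1 (h.comp h2)
    simp only [h1] at h3
    rw [summable_const_iff] at h3
    simpa using h3
  funext p
  have := P.fc u p.1 p.2
  rw [h0, h0, zero_add] at this
  exact this.symm

theorem low (P : Pot G) {H Ω : Type} [Group H] [Fintype Ω] (j : H →* G) (e : H × Ω ≃ G)
    (he : ∀ h h' ω, e (h * h', ω) = j h * e (h', ω)) (hj : Function.Injective j)
    (S : Finset H) (hS : Subgroup.closure (S : Set H) = ⊤) :
    2 * (Fintype.card Ω : ℝ) - 1 ≤ b1L2 S := by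
  let π : G × Bool → H × (Ω × Bool) := fun p => ((e.symm p.1).1, ((e.symm p.1).2, p.2))
  have hπ : Function.Injective π := by
    intro p q h
    simp only [π, Prod.ext_iff] at h
    exact Prod.ext (e.symm.injective (Prod.ext h.1 h.2.1)) h.2.2
  have hπ' : ∀ q : H × (Ω × Bool), π (e (q.1, q.2.1), q.2.2) = q := by
    intro q
    simp [π]
  have hπ2 : ∀ h g i, π (j h * g, i) = (h * (π (g, i)).1, (π (g, i)).2) := by
    intro h g i
    obtain ⟨⟨h', ω⟩, rfl⟩ := e.surjective g
    simp [π, ← he]
  let U : Ell (H × (Ω × Bool)) → G × Bool → ℂ := fun z p => z (π p)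
  have hU : ∀ z, Sq (U z) := fun z => Sq.comp (lp.memℓp z) hπ
  let T : Ell (H × (Ω × Bool)) →L[ℂ] Ell (H × S) := mkOp
    { toFun := fun z p => P.f (U z) (j p.1 * j p.2) - P.f (U z) (j p.1)
      map_add' := fun x y => by
        funext p
        have : U (x + y) = U x + U y := by
          funext q
          simp only [U, lp.coeFn_add, Pi.add_apply]
        simp only [this, P.f_add, Pi.add_apply]
        ring
      map_smul' := fun c x => by
        funext p
        have : U (c • x) = c • U x := by
          funext q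
          simp only [U, lp.coeFn_smul, Pi.smul_apply]
        simp only [this, P.f_smul, Pi.smul_apply, smul_eq_mul, RingHom.id_apply]
        ring }
    (fun z => sq_prod fun s => (P.sq (U z) (hU z) (j s)).comp hj)
    (fun p => P.cont U (fun q => cont_eval _) _ _)
  have hT : ∀ z p, T z p = P.f (U z) (j p.1 * j p.2) - P.f (U z) (j p.1) := fun z p => rfl
  have := b1L2_ge S T ?_ ?_ ?_
  · simp only [Fintype.card_prod, Fintype.card_bool, Nat.cast_mul, Nat.cast_ofNat] at this
    linarith
  · intro h z
    refine lp.ext (funext fun p => ?_)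
    have h1 : U (reg h z) = fun q => U z (j h⁻¹ * q.1, q.2) := by
      funext q
      simp only [U, reg_apply, hπ2]
    rw [reg_apply, hT, hT, h1, P.f_shift, P.f_shift]
    simp only [map_mul, mul_assoc]
    ring
  · intro z hz
    have h1 : ∀ s ∈ Subgroup.closure (S : Set H), ∀ h, P.f (U z) (j h * j s) = P.f (U z) (j h) := by
      intro s hs
      induction hs using Subgroup.closure_induction with
      | mem s hs =>
        intro h
        have := hT z (h, ⟨s, hs⟩)
        rw [hz] at this
        exact sub_eq_zero.1 this.symm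
      | one => intro h; rw [map_one, mul_one]
      | mul x y _ _ hx hy => intro h; rw [map_mul, ← mul_assoc, ← map_mul, hy, map_mul, hx]
      | inv x _ hx =>
        intro h
        have := hx (h * x⁻¹)
        rw [← map_mul, inv_mul_cancel_right, map_mul] at this
        exact this.symm
    have h2 : ∀ h, P.f (U z) (j h) = 0 := by
      intro h
      have := h1 h (hS ▸ Subgroup.mem_top h) 1
      rwa [map_one, one_mul, P.f1] at this
    have h3 : Sq fun q : H × Ω => P.f (U z) (e q) := by
      refine sq_prod fun ω => ?_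
      have := (P.sq (U z) (hU z) (e (1, ω))).comp hj
      simp only [h2, sub_zero, ← he, mul_one] at this
      exact this
    have h4 := h3.comp e.symm.injective
    simp only [Equiv.apply_symm_apply] at h4
    have h5 := P.zero_of_sq _ h4
    refine lp.ext (funext fun q => ?_)
    rw [← hπ' q]
    exact congrFun h5 _
  · intro z
    exact cob_orth S (fun h => P.f (U z) (j h)) _ fun p => by rw [hT, map_mul]

theorem low_top (P : Pot G) (S : Finset G) (hS : Subgroup.closure (S : Set G) = ⊤) :
    1 ≤ b1L2 S := by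
  have := low P (MonoidHom.id G) (Equiv.prodUnique G Unit) (fun _ _ _ => rfl)
    Function.injective_id S hS
  norm_num at this
  exact this

theorem low_sub (P : Pot G) (H : Subgroup G) [H.FiniteIndex] (S : Finset H)
    (hS : Subgroup.closure (S : Set H) = ⊤) : 2 * (H.index : ℝ) - 1 ≤ b1L2 S := by
  have : Fintype (G ⧸ H) := H.fintypeQuotientOfFiniteIndex
  let r : H × (G ⧸ H) → G := fun q => q.1 * (q.2.out)⁻¹
  have hr : Function.Bijective r := by
    constructor
    · rintro ⟨h, ω⟩ ⟨h', ω'⟩ hh
      have h1 : (h : G) * (ω.out)⁻¹ = h' * (ω'.out)⁻¹ := hh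
      have h2 : ω = ω' := by
        rw [← ω.out_eq, ← ω'.out_eq]
        refine QuotientGroup.eq.2 ?_
        have : (ω.out)⁻¹ * ω'.out = (h⁻¹ * h' : H) := by
          have h3 : (ω.out)⁻¹ = (h : G)⁻¹ * (h' * (ω'.out)⁻¹) := by rw [← h1]; simp
          rw [h3]
          simp [mul_assoc]
        rw [this]
        exact SetLike.coe_mem _
      subst h2
      exact Prod.ext (Subtype.ext (mul_right_cancel h1)) rfl
    · intro g
      have h1 : g * (QuotientGroup.mk g⁻¹ : G ⧸ H).out ∈ H := by
        have := QuotientGroup.eq.1 (QuotientGroup.out_eq' (QuotientGroup.mk g⁻¹ : G ⧸ H)).symm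
        rwa [inv_inv] at this
      exact ⟨(⟨_, h1⟩, QuotientGroup.mk g⁻¹), by simp [r]⟩
  have := low P H.subtype (Equiv.ofBijective r hr) (fun h h' ω => by
    simp [r, mul_assoc]) H.subtype_injective S hS
  rwa [Subgroup.index, Nat.card_eq_fintype_card]

end Pool.Agent.H46Z.L2
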