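import Mathlib
import Pool.Agent.H46Z.L2.Defs
import Pool.Agent.H46Z.L2.Grp

/-!
# Homomorphisms from surface groups to the group of order three lift to the integers
-/

set_option autoImplicit false

namespace Pool.Agent.H46Z.L2

theorem lifts_or (g : ℕ) : Lifts (OrientableSurfaceGroup g) := by
  intro φ
  refine lifts_presented _ φ (fun x => ((φ (PresentedGroup.of x)).toAdd.val : ℕ)) (fun x => by simp) ?_
  rw [map_list_prod, List.map_ofFn]
  refine List.prod_eq_one fun y hy => ?_
  obtain ⟨i, rfl⟩ := List.mem_ofFn.1 hy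
  simp

theorem lifts_non (k : ℕ) (hk : 0 < k) : Lifts (NonorientableSurfaceGroup k) := by
  intro φ
  let v : Fin k → ℤ := fun x => ((φ (PresentedGroup.of x)).toAdd.val : ℕ)
  have hv : ∀ x, ((v x : ℤ) : ZMod 3) = (φ (PresentedGroup.of x)).toAdd := fun x => by simp [v]
  have h0 : ((∑ x, v x : ℤ) : ZMod 3) = 0 := by
    have h1 := PresentedGroup.one_of_mem
      (rels := ({(List.ofFn fun i : Fin k => FreeGroup.of i ^ 2).prod} : Set (FreeGroup (Fin k))))
      (Set.mem_singleton _)
    have h2 := congrArg (fun z => (φ z).toAdd) h1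
    simp only [map_list_prod, List.map_ofFn, List.prod_ofFn, Function.comp_def, map_pow, map_one,
      toAdd_one, toAdd_prod, toAdd_pow] at h2
    rw [← Finset.smul_sum] at h2
    have h3 : ∀ z : ZMod 3, 2 • z = 0 → z = 0 := by decide
    push_cast
    simp only [hv]
    exact h3 _ h2
  refine lifts_presented _ φ (fun x => v x - if x = ⟨0, hk⟩ then ∑ y, v y else 0) (fun x => ?_) ?_
  · split_ifs
    · rw [Int.cast_sub, h0, sub_zero, hv]
    · rw [sub_zero, hv]
  · simp only [map_list_prod, List.map_ofFn, List.prod_ofFn, Function.comp_def, map_pow,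
      FreeGroup.lift_apply_of]
    apply Multiplicative.toAdd.injective
    simp only [toAdd_prod, toAdd_pow, toAdd_ofAdd, toAdd_one]
    rw [← Finset.smul_sum, Finset.sum_sub_distrib]
    simp

theorem lifts_surf (G : Type) [Group G] (h : IsHyperbolicSurfaceGroup G) : Lifts G := by
  rcases h with ⟨g, _, ⟨e⟩⟩ | ⟨k, hk, ⟨e⟩⟩
  · exact Lifts.of_equiv e (lifts_or g)
  · exact Lifts.of_equiv e (lifts_non k (by omega))

end Pool.Agent.H46Z.L2
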